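import Pool.Agent.W680.WH.Stm

/-!
# Project WHH: existence of a nonzero operator (WHH-KN1)
-/

set_option autoImplicit false

open scoped ComplexConjugate InnerProductSpace
open ContinuousLinearMap Filter Pool.Agent.W680.WH

namespace Pool.Agent.W486.WH

/-- `T` preserves the form of `P` -/
def IsoP (P T : E →L[ℂ] E) : Prop := adjoint T * P * T = P

lemma adj_mul (A B : E →L[ℂ] E) : adjoint (A * B) = adjoint B * adjoint A :=
  ContinuousLinearMap.adjoint_comp A B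

lemma adj_one : adjoint (1 : E →L[ℂ] E) = 1 := ContinuousLinearMap.adjoint_id

lemma IsoP.mul {P S T : E →L[ℂ] E} (hS : IsoP P S) (hT : IsoP P T) : IsoP P (S * T) := by
  unfold IsoP at *
  calc adjoint (S * T) * P * (S * T) = adjoint T * (adjoint S * P * S) * T := by
        rw [adj_mul]; simp only [mul_assoc]
    _ = P := by rw [hS, hT]

lemma IsoP.one (P : E →L[ℂ] E) : IsoP P 1 := by
  unfold IsoP; rw [adj_one, one_mul, mul_one]

lemma IsoP.pow {P T : E →L[ℂ] E} (hT : IsoP P T) (j : ℕ) : IsoP P (T ^ j) := by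
  induction j with
  | zero => rw [pow_zero]; exact IsoP.one P
  | succ j ih => rw [pow_succ]; exact ih.mul hT

lemma IsoP.inv {P : E →L[ℂ] E} {W : (E →L[ℂ] E)ˣ} (hW : IsoP P (W : E →L[ℂ] E)) :
    IsoP P ((W⁻¹ : (E →L[ℂ] E)ˣ) : E →L[ℂ] E) := by
  unfold IsoP at *
  set V := ((W⁻¹ : (E →L[ℂ] E)ˣ) : E →L[ℂ] E) with hV
  have h1 : (W : E →L[ℂ] E) * V = 1 := W.mul_inv
  calc adjoint V * P * V = adjoint V * (adjoint (W : E →L[ℂ] E) * P * (W : E →L[ℂ] E)) * V := by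
        rw [hW]
    _ = (adjoint V * adjoint (W : E →L[ℂ] E)) * P * ((W : E →L[ℂ] E) * V) := by
        simp only [mul_assoc]
    _ = P := by rw [← adj_mul, h1, adj_one, one_mul, mul_one]

/-- bound for operators preserving a positive form -/
lemma iso_bound {P T : E →L[ℂ] E} {m : ℝ} (hm : 0 < m)
    (hP : ∀ f, m * ‖f‖ ^ 2 ≤ (⟪f, P f⟫_ℂ).re) (hT : IsoP P T) (f : E) :
    ‖T f‖ ^ 2 ≤ ‖P‖ / m * ‖f‖ ^ 2 := by
  have h1 : ⟪T f, P (T f)⟫_ℂ = ⟪f, P f⟫_ℂ := by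
    rw [← ContinuousLinearMap.adjoint_inner_right]
    have : (adjoint T) (P (T f)) = P f := by
      have h := congrArg (fun A : E →L[ℂ] E => A f) hT
      exact h
    rw [this]
  have h2 : (⟪f, P f⟫_ℂ).re ≤ ‖P‖ * ‖f‖ ^ 2 := by
    calc (⟪f, P f⟫_ℂ).re ≤ ‖⟪f, P f⟫_ℂ‖ := Complex.re_le_norm _
      _ ≤ ‖f‖ * ‖P f‖ := norm_inner_le_norm _ _
      _ ≤ ‖f‖ * (‖P‖ * ‖f‖) := mul_le_mul_of_nonneg_left (P.le_opNorm f) (norm_nonneg _)
      _ = _ := by ring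
  have h3 := hP (T f)
  rw [h1] at h3
  rw [div_mul_eq_mul_div, le_div_iff₀ hm]
  linarith

lemma isoP_R (hR : S_OPR) (k : Circle) : IsoP 1 (R k) := by
  obtain ⟨-, -, -, hmul, hone, hadj, -⟩ := hR
  unfold IsoP
  rw [hadj, mul_one, hmul, inv_mul_cancel, hone]

lemma norm_of_iso1 {T : E →L[ℂ] E} (hT : IsoP 1 T) (f : E) : ‖T f‖ ≤ ‖f‖ := by
  have h := iso_bound (P := 1) (T := T) (m := 1) one_pos (fun f => by
    have : ⟪f, (1 : E →L[ℂ] E) f⟫_ℂ = ((‖f‖ ^ 2 : ℝ) : ℂ) := by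
      rw [ContinuousLinearMap.one_apply, inner_self_eq_norm_sq_to_K]
      push_cast; rfl
    rw [this, Complex.ofReal_re, one_mul]) hT f
  have h1 : ‖(1 : E →L[ℂ] E)‖ ≤ 1 := ContinuousLinearMap.norm_id_le
  have h2 : ‖T f‖ ^ 2 ≤ ‖f‖ ^ 2 := by
    rw [div_one] at h
    nlinarith [sq_nonneg ‖f‖]
  exact le_of_sq_le_sq h2 (norm_nonneg _)

/-- the rotation as a unit -/
noncomputable def Ru (hR : S_OPR) (k : Circle) : (E →L[ℂ] E)ˣ where
  val := R k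
  inv := R k⁻¹
  val_inv := by rw [hR.2.2.2.1, mul_inv_cancel, hR.2.2.2.2.1]
  inv_val := by rw [hR.2.2.2.1, inv_mul_cancel, hR.2.2.2.2.1]

lemma Ru_val (hR : S_OPR) (k : Circle) : (Ru hR k : E →L[ℂ] E) = R k := rfl

lemma Ru_inv (hR : S_OPR) (k : Circle) :
    (((Ru hR k)⁻¹ : (E →L[ℂ] E)ˣ) : E →L[ℂ] E) = R k⁻¹ := rfl

noncomputable def Mu (hR : S_OPR) (k : Circle) (W : (E →L[ℂ] E)ˣ) (j : ℕ) : (E →L[ℂ] E)ˣ :=
  W ^ j * Ru hR k ^ j

lemma Mu_succ (hR : S_OPR) (k : Circle) (W : (E →L[ℂ] E)ˣ) (j : ℕ) :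
    Mu hR k W (j + 1) = W * Mu hR k W j * Ru hR k := by
  unfold Mu; rw [pow_succ', pow_succ]; simp only [mul_assoc]

lemma Mu_comm (hR : S_OPR) (k : Circle) (W : (E →L[ℂ] E)ˣ)
    (hWZ : (k : ℂ) • ((W : E →L[ℂ] E) * Z) = Z * (W : E →L[ℂ] E)) (j : ℕ) :
    (Mu hR k W j : E →L[ℂ] E) * Z = Z * (Mu hR k W j : E →L[ℂ] E) := by
  induction j with
  | zero => simp [Mu]
  | succ j ih =>
    rw [Mu_succ, Units.val_mul, Units.val_mul, Ru_val]
    set M := (Mu hR k W j : E →L[ℂ] E) with hM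
    set w := (W : E →L[ℂ] E) with hw
    have h1 : R k * Z = (k : ℂ) • (Z * R k) := hR.2.1 k
    calc w * M * R k * Z = w * M * (R k * Z) := by rw [mul_assoc]
      _ = (k : ℂ) • (w * (M * Z) * R k) := by
        rw [h1, mul_smul_comm]; simp only [mul_assoc]
      _ = ((k : ℂ) • (w * Z)) * M * R k := by
        rw [ih, smul_mul_assoc, smul_mul_assoc]; simp only [mul_assoc]
      _ = Z * (w * M * R k) := by rw [hWZ]; simp only [mul_assoc]

lemma Ru_pow_eb (hR : S_OPR) (k : Circle) (j : ℕ) :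
    ((Ru hR k ^ j : (E →L[ℂ] E)ˣ) : E →L[ℂ] E) (eb 0) = eb 0 := by
  induction j with
  | zero => simp
  | succ j ih =>
    rw [pow_succ, Units.val_mul, ContinuousLinearMap.mul_apply, Ru_val]
    have h := hR.1 k 0
    have h2 : R k (eb 0) = eb 0 := by rw [h]; simp
    rw [h2, ih]

lemma Mu_eb (hR : S_OPR) (k : Circle) (W : (E →L[ℂ] E)ˣ) (j : ℕ) :
    (Mu hR k W j : E →L[ℂ] E) (eb 0) = ((W : E →L[ℂ] E) ^ j) (eb 0) := by
  unfold Mu
  rw [Units.val_mul, ContinuousLinearMap.mul_apply, Ru_pow_eb, Units.val_pow_eq_pow_val]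

lemma Mu_bound (hR : S_OPR) {P : E →L[ℂ] E} {m : ℝ} (hm : 0 < m)
    (hP : ∀ f, m * ‖f‖ ^ 2 ≤ (⟪f, P f⟫_ℂ).re) (k : Circle) (W : (E →L[ℂ] E)ˣ)
    (hW : IsoP P (W : E →L[ℂ] E)) (j : ℕ) (f : E) :
    ‖(Mu hR k W j : E →L[ℂ] E) f‖ ^ 2 ≤ ‖P‖ / m * ‖f‖ ^ 2 := by
  unfold Mu
  rw [Units.val_mul, ContinuousLinearMap.mul_apply, Units.val_pow_eq_pow_val,
    Units.val_pow_eq_pow_val, Ru_val]
  refine (iso_bound hm hP (hW.pow j) _).trans ?_
  have h1 := norm_of_iso1 ((isoP_R hR k).pow j) f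
  exact mul_le_mul_of_nonneg_left (pow_le_pow_left₀ (norm_nonneg _) h1 2) (by positivity)

lemma Mu_inv_bound (hR : S_OPR) {P : E →L[ℂ] E} {m : ℝ} (hm : 0 < m)
    (hP : ∀ f, m * ‖f‖ ^ 2 ≤ (⟪f, P f⟫_ℂ).re) (k : Circle) (W : (E →L[ℂ] E)ˣ)
    (hW : IsoP P (W : E →L[ℂ] E)) (j : ℕ) (f : E) :
    ‖(((Mu hR k W j)⁻¹ : (E →L[ℂ] E)ˣ) : E →L[ℂ] E) f‖ ^ 2 ≤ ‖P‖ / m * ‖f‖ ^ 2 := by
  unfold Mu
  rw [mul_inv_rev, ← inv_pow, ← inv_pow, Units.val_mul, ContinuousLinearMap.mul_apply,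
    Units.val_pow_eq_pow_val, Units.val_pow_eq_pow_val, Ru_inv]
  have h1 := norm_of_iso1 ((isoP_R hR k⁻¹).pow j)
    (((((W⁻¹ : (E →L[ℂ] E)ˣ) : E →L[ℂ] E)) ^ j) f)
  refine (pow_le_pow_left₀ (norm_nonneg _) h1 2).trans ?_
  exact iso_bound hm hP (hW.inv.pow j) _

lemma op_bound {T : E →L[ℂ] E} {C : ℝ} (hC : 0 ≤ C) (h : ∀ f, ‖T f‖ ^ 2 ≤ C * ‖f‖ ^ 2) :
    ‖T‖ ≤ Real.sqrt C := by
  refine T.opNorm_le_bound (Real.sqrt_nonneg _) fun f => ?_
  refine le_of_sq_le_sq ?_ (by positivity)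
  rw [mul_pow, Real.sq_sqrt hC]
  exact h f

lemma eb0_norm (hC : S_OPC) : ‖eb 0‖ ^ 2 = 1 := by
  obtain ⟨h1, -, -, -, -, -, h7, -⟩ := hC
  rw [h7, tsum_eq_single 0]
  · rw [h1]; simp [om_zero]
  · intro n hn; rw [h1]; simp [hn]

/-- lower bound on a finite set of coordinates -/
lemma lower (hLow : S_LOW) (hOM : S_OM) (hC : S_OPC) (hR : S_OPR) {P : E →L[ℂ] E} {m : ℝ}
    (hm : 0 < m) (hP : ∀ f, m * ‖f‖ ^ 2 ≤ (⟪f, P f⟫_ℂ).re) (k : Circle) (W : (E →L[ℂ] E)ˣ)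
    (hW : IsoP P (W : E →L[ℂ] E))
    (hWZ : (k : ℂ) • ((W : E →L[ℂ] E) * Z) = Z * (W : E →L[ℂ] E)) :
    ∃ (s : Finset ℤ) (c : ℝ), 0 < c ∧ ∀ j : ℕ,
      c ≤ ∑ n ∈ s, ‖co (((W : E →L[ℂ] E) ^ j) (eb 0)) n‖ ^ 2 := by
  obtain ⟨hom1, hommono, -, homtop, -⟩ := hOM
  have hC7 := hC.2.2.2.2.2.2.1
  have hC8 := hC.2.2.2.2.2.2.2.1
  set C : ℝ := ‖P‖ / m + 1 with hCdef
  have hCpos : 0 < C := by positivity
  have hPC : ‖P‖ / m ≤ C := by rw [hCdef]; linarith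
  obtain ⟨K, hK⟩ : ∃ K : ℕ, 2 * C ^ 2 ≤ om K := (homtop.eventually_ge_atTop _).exists
  refine ⟨Finset.Icc (-(K : ℤ)) K, 1 / (2 * C), by positivity, fun j => ?_⟩
  set f := ((W : E →L[ℂ] E) ^ j) (eb 0) with hf
  have hfn : ‖f‖ ^ 2 ≤ C := by
    have := iso_bound hm hP (hW.pow j) (eb 0)
    rw [eb0_norm hC, mul_one] at this
    exact this.trans hPC
  have hlow := hLow (Mu hR k W j) (Mu_comm hR k W hWZ j)
  rw [Mu_eb] at hlow
  have hinv : ‖(((Mu hR k W j)⁻¹ : (E →L[ℂ] E)ˣ) : E →L[ℂ] E)‖ ^ 2 ≤ C := by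
    have h1 := op_bound (T := (((Mu hR k W j)⁻¹ : (E →L[ℂ] E)ˣ) : E →L[ℂ] E)) (C := C) hCpos.le
      (fun g => (Mu_inv_bound hR hm hP k W hW j g).trans
        (mul_le_mul_of_nonneg_right hPC (by positivity)))
    calc _ ≤ (Real.sqrt C) ^ 2 := pow_le_pow_left₀ (norm_nonneg _) h1 2
      _ = C := Real.sq_sqrt hCpos.le
  have hsum1 : Summable fun n => om n * ‖co f n‖ ^ 2 := hC8 f
  have hsum2 : Summable fun n => ‖co f n‖ ^ 2 := by
    refine Summable.of_nonneg_of_le (fun n => by positivity) (fun n => ?_) hsum1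
    have := hom1 n
    nlinarith [sq_nonneg ‖co f n‖]
  have hKpos := om_pos (K : ℤ)
  set s := Finset.Icc (-(K : ℤ)) K with hs
  have hsum3 : Summable fun n => (if n ∈ s then ‖co f n‖ ^ 2 else 0) :=
    (hasSum_sum_of_ne_finset_zero (s := s) (fun n hn => if_neg hn)).summable
  have htail : ∑' n, ‖co f n‖ ^ 2 ≤ ∑ n ∈ s, ‖co f n‖ ^ 2 + C / om K := by
    calc ∑' n, ‖co f n‖ ^ 2 ≤ ∑' n, ((if n ∈ s then ‖co f n‖ ^ 2 else 0) +
          (om n * ‖co f n‖ ^ 2) / om K) := by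
          refine hsum2.tsum_le_tsum (fun n => ?_) (hsum3.add (hsum1.div_const _))
          by_cases hn : n ∈ s
          · rw [if_pos hn]
            have : 0 ≤ (om n * ‖co f n‖ ^ 2) / om K :=
              div_nonneg (mul_nonneg (om_pos n).le (by positivity)) hKpos.le
            linarith
          · rw [if_neg hn, zero_add, le_div_iff₀ hKpos]
            have h1 : om K ≤ om n := by
              refine hommono _ _ ?_
              rw [hs, Finset.mem_Icc] at hn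
              omega
            nlinarith [sq_nonneg ‖co f n‖]
      _ = ∑ n ∈ s, ‖co f n‖ ^ 2 + ‖f‖ ^ 2 / om K := by
          rw [hsum3.tsum_add (hsum1.div_const _), tsum_div_const, ← hC7 f]
          congr 1
          rw [tsum_eq_sum (s := s) (fun n hn => if_neg hn)]
          exact Finset.sum_congr rfl fun n hn => if_pos hn
      _ ≤ _ := by gcongr
  have hnn : 0 ≤ ∑' n, ‖co f n‖ ^ 2 := tsum_nonneg fun n => by positivity
  have h1 : 1 ≤ C * ∑' n, ‖co f n‖ ^ 2 :=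
    hlow.trans (mul_le_mul_of_nonneg_right hinv hnn)
  have h2 : 1 ≤ C * (∑ n ∈ s, ‖co f n‖ ^ 2 + C / om K) :=
    h1.trans (mul_le_mul_of_nonneg_left htail hCpos.le)
  have h3 : C * (C / om K) ≤ 1 / 2 := by
    rw [← mul_div_assoc, div_le_iff₀ hKpos]; nlinarith
  have h4 : 1 / 2 ≤ C * ∑ n ∈ s, ‖co f n‖ ^ 2 := by
    rw [mul_add] at h2; linarith
  rw [div_le_iff₀ (by positivity)]
  linarith

/-- averages -/
noncomputable def Av (hR : S_OPR) (k : Circle) (W : (E →L[ℂ] E)ˣ) (l : ℂ) (N : ℕ) : E →L[ℂ] E :=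
  ((N : ℂ) + 1)⁻¹ • ∑ j ∈ Finset.range (N + 1), (l⁻¹) ^ j • (Mu hR k W j : E →L[ℂ] E)

lemma Av_comm (hR : S_OPR) (k : Circle) (W : (E →L[ℂ] E)ˣ)
    (hWZ : (k : ℂ) • ((W : E →L[ℂ] E) * Z) = Z * (W : E →L[ℂ] E)) (l : ℂ) (N : ℕ) :
    Av hR k W l N * Z = Z * Av hR k W l N := by
  unfold Av
  rw [smul_mul_assoc, mul_smul_comm, Finset.sum_mul, Finset.mul_sum]
  congr 1
  refine Finset.sum_congr rfl fun j _ => ?_
  rw [smul_mul_assoc, mul_smul_comm, Mu_comm hR k W hWZ j]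

lemma Av_norm (hR : S_OPR) {P : E →L[ℂ] E} {m : ℝ} (hm : 0 < m)
    (hP : ∀ f, m * ‖f‖ ^ 2 ≤ (⟪f, P f⟫_ℂ).re) (k : Circle) (W : (E →L[ℂ] E)ˣ)
    (hW : IsoP P (W : E →L[ℂ] E)) (l : ℂ) (hl : ‖l‖ = 1) (N : ℕ) :
    ‖Av hR k W l N‖ ≤ Real.sqrt (‖P‖ / m) := by
  have hb : ∀ j, ‖(Mu hR k W j : E →L[ℂ] E)‖ ≤ Real.sqrt (‖P‖ / m) := fun j =>
    op_bound (by positivity) (Mu_bound hR hm hP k W hW j)
  unfold Av
  rw [norm_smul, norm_inv]
  have h1 : ‖((N : ℂ) + 1)‖ = (N : ℝ) + 1 := by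
    have : ((N : ℂ) + 1) = (((N : ℝ) + 1 : ℝ) : ℂ) := by push_cast; rfl
    rw [this, Complex.norm_real, Real.norm_of_nonneg (by positivity)]
  rw [h1]
  have h2 : ‖∑ j ∈ Finset.range (N + 1), (l⁻¹) ^ j • (Mu hR k W j : E →L[ℂ] E)‖ ≤
      ((N : ℝ) + 1) * Real.sqrt (‖P‖ / m) := by
    refine (norm_sum_le _ _).trans ?_
    have : ∀ j ∈ Finset.range (N + 1), ‖(l⁻¹) ^ j • (Mu hR k W j : E →L[ℂ] E)‖ ≤
        Real.sqrt (‖P‖ / m) := by
      intro j _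
      rw [norm_smul, norm_pow, norm_inv, hl, inv_one, one_pow, one_mul]
      exact hb j
    refine (Finset.sum_le_card_nsmul _ _ _ this).trans ?_
    rw [Finset.card_range, nsmul_eq_mul]
    push_cast
    exact le_rfl
  calc ((N : ℝ) + 1)⁻¹ * _ ≤ ((N : ℝ) + 1)⁻¹ * (((N : ℝ) + 1) * Real.sqrt (‖P‖ / m)) :=
        mul_le_mul_of_nonneg_left h2 (by positivity)
    _ = _ := by field_simp

lemma Av_eb (hR : S_OPR) (k : Circle) (W : (E →L[ℂ] E)ˣ) (l : ℂ) (N : ℕ) :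
    Av hR k W l N (eb 0) = ((N : ℂ) + 1)⁻¹ •
        ∑ j ∈ Finset.range (N + 1), (l⁻¹) ^ j • ((W : E →L[ℂ] E) ^ j) (eb 0) := by
  unfold Av
  rw [ContinuousLinearMap.smul_apply, ContinuousLinearMap.sum_apply]
  congr 1
  refine Finset.sum_congr rfl fun j _ => ?_
  rw [ContinuousLinearMap.smul_apply, Mu_eb]

/-- bounded operators commuting with `Z` which converge on `eb 0` converge strongly -/
lemma strong (hA : S_OPA) (hC : S_OPC) (A : ℕ → E →L[ℂ] E) (B : ℝ) (hB : ∀ N, ‖A N‖ ≤ B)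
    (hZ : ∀ N, A N * Z = Z * A N) (F : E) (hF : Tendsto (fun N => A N (eb 0)) atTop (nhds F)) :
    ∃ T : E →L[ℂ] E, T * Z = Z * T ∧ T (eb 0) = F := by
  obtain ⟨⟨hZZi, hZiZ, -, -⟩, -, ⟨hZeb, -⟩, -⟩ := hA
  have hdense := hC.2.2.2.2.2.2.2.2.2.2.2.2.2.2.1
  have hB0 : 0 ≤ B := (norm_nonneg _).trans (hB 0)
  have heb : ∀ n : ℤ, ∃ G, Tendsto (fun N => A N (eb n)) atTop (nhds G) := by
    intro n
    induction n using Int.induction_on with
    | zero => exact ⟨F, hF⟩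
    | succ i ih =>
      obtain ⟨G, hG⟩ := ih
      refine ⟨Z G, ?_⟩
      have h1 : (fun N => A N (eb ((i : ℤ) + 1))) = fun N => Z (A N (eb (i : ℤ))) := by
        ext1 N
        rw [← hZeb]
        exact congrArg (fun T : E →L[ℂ] E => T (eb (i : ℤ))) (hZ N)
      rw [h1]
      exact (Z.continuous.tendsto G).comp hG
    | pred i ih =>
      obtain ⟨G, hG⟩ := ih
      refine ⟨Zi G, ?_⟩
      have h1 : (fun N => A N (eb (-(i : ℤ) - 1))) = fun N => Zi (A N (eb (-(i : ℤ)))) := by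
        ext1 N
        have h2 : eb (-(i : ℤ)) = Z (eb (-(i : ℤ) - 1)) := by
          rw [hZeb]; congr 1; ring
        rw [h2]
        have h3 : A N (Z (eb (-(i : ℤ) - 1))) = Z (A N (eb (-(i : ℤ) - 1))) :=
          congrArg (fun T : E →L[ℂ] E => T (eb (-(i : ℤ) - 1))) (hZ N)
        rw [h3]
        exact (congrArg (fun T : E →L[ℂ] E => T (A N (eb (-(i : ℤ) - 1)))) hZiZ).symm
      rw [h1]
      exact (Zi.continuous.tendsto G).comp hG
  have hspan : ∀ g ∈ Submodule.span ℂ (Set.range eb), ∃ G, Tendsto (fun N => A N g) atTop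
      (nhds G) := by
    intro g hg
    induction hg using Submodule.span_induction with
    | mem x hx => obtain ⟨n, rfl⟩ := hx; exact heb n
    | zero => exact ⟨0, by simp⟩
    | add x y _ _ hx hy =>
      obtain ⟨G, hG⟩ := hx
      obtain ⟨G', hG'⟩ := hy
      refine ⟨G + G', ?_⟩
      simp only [map_add]
      exact hG.add hG'
    | smul a x _ hx =>
      obtain ⟨G, hG⟩ := hx
      refine ⟨a • G, ?_⟩
      simp only [map_smul]
      exact hG.const_smul a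
  have hall : ∀ f : E, ∃ G, Tendsto (fun N => A N f) atTop (nhds G) := by
    intro f
    refine cauchySeq_tendsto_of_complete ?_
    rw [Metric.cauchySeq_iff']
    intro ε hε
    have hδ : 0 < ε / (3 * (B + 1)) := by positivity
    obtain ⟨g, hg, hfg⟩ := Metric.dense_iff.1 hdense f _ hδ
    rw [Metric.mem_ball, dist_eq_norm] at hg
    obtain ⟨G, hG⟩ := hspan g hfg
    obtain ⟨N, hN⟩ := Metric.cauchySeq_iff'.1 hG.cauchySeq (ε / 3) (by positivity)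
    refine ⟨N, fun n hn => ?_⟩
    have h1 := hN n hn
    rw [dist_eq_norm] at h1 ⊢
    have hb : ∀ M, ‖A M (g - f)‖ ≤ ε / 3 := by
      intro M
      calc ‖A M (g - f)‖ ≤ ‖A M‖ * ‖g - f‖ := (A M).le_opNorm _
        _ ≤ (B + 1) * (ε / (3 * (B + 1))) :=
            mul_le_mul ((hB M).trans (by linarith)) hg.le (norm_nonneg _) (by positivity)
        _ = ε / 3 := by field_simp
    have h2 : A n f - A N f = (A n g - A N g) - A n (g - f) + A N (g - f) := by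
      rw [map_sub, map_sub]; abel
    rw [h2]
    calc ‖(A n g - A N g) - A n (g - f) + A N (g - f)‖
        ≤ ‖A n g - A N g‖ + ‖A n (g - f)‖ + ‖A N (g - f)‖ :=
          (norm_add_le _ _).trans (add_le_add_left (norm_sub_le _ _) _)
      _ < ε := by linarith [hb n, hb N]
  choose T hT using hall
  have hTt : Tendsto (fun N f => A N f) atTop (nhds T) := tendsto_pi_nhds.2 hT
  refine ⟨continuousLinearMapOfTendsto A hTt, ?_, ?_⟩
  · ext1 f
    show T (Z f) = Z (T f)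
    have h1 := hT (Z f)
    have h2 : (fun N => A N (Z f)) = fun N => Z (A N f) := by
      ext1 N
      exact congrArg (fun T : E →L[ℂ] E => T f) (hZ N)
    rw [h2] at h1
    exact tendsto_nhds_unique h1 ((Z.continuous.tendsto _).comp (hT f))
  · show T (eb 0) = F
    exact tendsto_nhds_unique (hT (eb 0)) hF

theorem kn1 (hLow : S_LOW) (hWi : S_WI2) (hOM : S_OM) (hA : S_OPA) (hC : S_OPC) (hR : S_OPR) :
    S_KN1 := by
  intro P m k W hm hPadj hP hW hWZ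
  obtain ⟨s, c, hc, hcs⟩ := lower hLow hOM hC hR hm hP k W hW hWZ
  have hC10 := hC.2.2.2.2.2.2.2.2.2.1
  have hinner : ∀ (n : ℤ) (f : E), ⟪(((om n)⁻¹ : ℝ) : ℂ) • eb n, f⟫_ℂ = co f n := by
    intro n f
    rw [inner_smul_left, hC10, Complex.conj_ofReal, ← mul_assoc, ← Complex.ofReal_mul,
      inv_mul_cancel₀ (om_pos n).ne', Complex.ofReal_one, one_mul]
  obtain ⟨l, F, hl, hF0, hWF, hlim⟩ := hWi P m W (eb 0) s (fun n => (((om n)⁻¹ : ℝ) : ℂ) • eb n) c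
    hm hPadj hP hW hc (fun j => by simp only [hinner]; exact hcs j)
  obtain ⟨T, hTZ, hTF⟩ := strong hA hC (Av hR k W l) _ (Av_norm hR hm hP k W hW l hl)
    (Av_comm hR k W hWZ l) F (by simp only [Av_eb]; exact hlim)
  refine ⟨T, l, hl, hTZ, ?_, ?_⟩
  · rintro rfl
    apply hF0
    rw [← hTF]; simp
  · set w := (W : E →L[ℂ] E) with hw
    have h1 : R k * Z = (k : ℂ) • (Z * R k) := hR.2.1 k
    have hcomm : (w * T * R k) * Z = Z * (w * T * R k) := by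
      calc w * T * R k * Z = w * T * (R k * Z) := by rw [mul_assoc]
        _ = (k : ℂ) • (w * (T * Z) * R k) := by
          rw [h1, mul_smul_comm]; simp only [mul_assoc]
        _ = ((k : ℂ) • (w * Z)) * T * R k := by
          rw [hTZ, smul_mul_assoc, smul_mul_assoc]; simp only [mul_assoc]
        _ = Z * (w * T * R k) := by rw [hWZ]; simp only [mul_assoc]
    have hcomm2 : (l • T) * Z = Z * (l • T) := by
      rw [smul_mul_assoc, mul_smul_comm, hTZ]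
    have h2 : R k (eb 0) = eb 0 := by rw [hR.1 k 0]; simp
    have h3 : (w * T * R k) (eb 0) = (l • T) (eb 0) := by
      show w (T (R k (eb 0))) = l • T (eb 0)
      rw [h2, hTF, hWF]
    have h4 : w * T * R k = l • T :=
      hC.2.2.2.2.2.2.2.2.2.2.2.2.2.2.2.2.2 _ _ hcomm hcomm2 h3
    calc w * T = w * T * (R k * R k⁻¹) := by
          rw [hR.2.2.2.1, mul_inv_cancel, hR.2.2.2.2.1, mul_one]
      _ = (w * T * R k) * R k⁻¹ := by simp only [mul_assoc]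
      _ = l • (T * R k⁻¹) := by rw [h4, smul_mul_assoc]

end Pool.Agent.W486.WH
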